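import Pool.Agent.Helper6.GP.Goals
import Pool.Agent.Helper67.AK.UR
import Pool.Agent.Helper60.AK.LZ

/-!
# Packet GP-ENT: uniformity of a long lazy word on tuples, two-sided
-/

set_option autoImplicit false

namespace Pool.Agent.Helper61.GP

open Equiv Pool.Agent.Helper3.AK Pool.Agent.Helper67.AK

theorem entThm : Pool.Agent.Helper6.GP.S_ENT := by
  intro n k j m z ε hk hj hε hε1 hgap a b
  classical
  have hAvg := (Pool.Agent.Helper60.AK.LZ.lz n k j m z hk).1
  set N : ℕ := n.descFactorial j with hN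
  have hcard : Fintype.card (Fin j ↪ Fin n) = N := by
    rw [Fintype.card_embedding_eq, Fintype.card_fin, Fintype.card_fin]
  have hNpos : 0 < N := by
    rw [hN]; exact Nat.descFactorial_pos.mpr (by omega)
  have hNR : (0 : ℝ) < N := by exact_mod_cast hNpos
  set δ : Fn n j := fun c => if c = b then 1 else 0 with hδ
  set ψ : Fn n j := δ - (fun _ => (N : ℝ)⁻¹) with hψ
  have hψsum : ∑ c, ψ c = 0 := by
    have h1 : ∑ c, δ c = 1 := by
      rw [hδ]; simp
    rw [hψ]
    simp only [Pi.sub_apply]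
    rw [Finset.sum_sub_distrib, h1, Finset.sum_const, Finset.card_univ, hcard, nsmul_eq_mul,
      mul_inv_cancel₀ hNR.ne', sub_self]
  have hψip : ip ψ ψ ≤ 1 := by
    have h1 : ip δ δ = 1 := by
      unfold ip
      rw [hδ]; simp
    have h2 : ip δ (fun _ => (N : ℝ)⁻¹) = (N : ℝ)⁻¹ := by
      unfold ip
      rw [hδ]; simp
    have h3 : ip (fun _ => (N : ℝ)⁻¹ : Fn n j) (fun _ => (N : ℝ)⁻¹) = (N : ℝ)⁻¹ := by
      unfold ip
      rw [Finset.sum_const, Finset.card_univ, hcard, nsmul_eq_mul, ← mul_assoc,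
        mul_inv_cancel₀ hNR.ne', one_mul]
    rw [hψ, ip_sub_left, ip_sub_right, ip_sub_right, ip_comm (fun _ => (N : ℝ)⁻¹) δ, h1, h2, h3]
    have : 0 < (N : ℝ)⁻¹ := inv_pos.mpr hNR
    linarith
  -- the sum is a value of the average
  have hsum : ∑ g ∈ Finset.univ.filter (fun g : Perm (Fin n) => ∀ i, g (a i) = b i),
      lazyLaw z m g = (Avg (lazyLaw z m) : Fn n j →ₗ[ℝ] Fn n j) δ a := by
    rw [Avg_apply, Finset.sum_filter]
    refine Finset.sum_congr rfl fun g _ => ?_
    have : (a.trans g.toEmbedding = b) ↔ (∀ i, g (a i) = b i) := by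
      constructor
      · intro h i
        rw [← h]; rfl
      · intro h
        ext i
        exact congrArg Fin.val (h i)
    rw [hδ]
    simp only [this]
    split_ifs <;> simp
  have hdec : δ = ψ + (fun _ => (N : ℝ)⁻¹) := by rw [hψ]; simp
  have hval : (Lz z ^ m) δ a = (Lz z ^ m) ψ a + (N : ℝ)⁻¹ := by
    conv_lhs => rw [hdec]
    rw [map_add, Lz_pow_const z hk, Pi.add_apply]
  obtain ⟨-, hb⟩ := Lz_pow_bound z hk hε1 hgap m ψ hψsum
  set v := (Lz z ^ m) ψ with hv
  have hc0 : 0 ≤ (1 - ε / 2) ^ m := pow_nonneg (by linarith) m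
  have h1 : v a ^ 2 ≤ ip v v := by
    unfold ip
    have := Finset.single_le_sum (f := fun c => v c * v c) (fun c _ => mul_self_nonneg _)
      (Finset.mem_univ a)
    simpa [sq] using this
  have h2 : v a ^ 2 ≤ ((1 - ε / 2) ^ m) ^ 2 := by
    refine h1.trans (hb.trans ?_)
    exact mul_le_of_le_one_right (sq_nonneg _) hψip
  have h3 : |v a| ≤ (1 - ε / 2) ^ m := abs_le_of_sq_le_sq h2 hc0
  have h4 : ∑ g ∈ Finset.univ.filter (fun g : Perm (Fin n) => ∀ i, g (a i) = b i),
      lazyLaw z m g = v a + (N : ℝ)⁻¹ := by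
    rw [hsum, hAvg, hval]
  have h5 : ∑ g ∈ Finset.univ.filter (fun g : Perm (Fin n) => ∀ i, g (a i) = b i),
      lazyLaw z m g - 1 / (N : ℝ) = v a := by
    rw [h4, one_div]; ring
  refine le_trans (le_of_eq ?_) h3
  rw [← h5]

/-- Packet ENT. -/
theorem thm : Pool.Agent.Helper6.GP.S_ENT := entThm

end Pool.Agent.Helper61.GP
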