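import Pool.Agent.Helper6.GP.Goals
import Pool.Agent.Helper15.An.Fam

/-!
# Packet GP-HITN: hitting, with numbers
-/

set_option autoImplicit false

namespace Pool.Agent.Helper61.GPH

open Equiv Filter Topology Pool.Agent.Helper15.An Pool.Agent.Helper6.GP

/-- the numerical estimate -/
lemma numEst (α e : ℝ) (hα : 0 < α) (he : 0 < e) (heα : e < α) : ∀ᶠ n : ℕ in atTop,
    6 ≤ n ∧ ∀ q : ℕ, (q : ℝ) ≤ (n : ℝ) ^ (α - e) →
      200 * (n : ℝ) * (n : ℝ) ^ (2 * q + 3) *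
        Real.exp (-((n : ℝ) ^ α / (1000 * Real.log n))) ≤ 1 := by
  have h1 : ∀ᶠ x : ℝ in atTop, Real.log x ≤ x ^ (e / 4) := by
    have h := (isLittleO_log_rpow_atTop (show 0 < e / 4 by linarith)).bound
      (show (0 : ℝ) < 1 by norm_num)
    filter_upwards [h, eventually_ge_atTop (1 : ℝ)] with x hx hx1
    rw [one_mul, Real.norm_of_nonneg (Real.log_nonneg hx1),
      Real.norm_of_nonneg (Real.rpow_nonneg (by linarith) _)] at hx
    exact hx
  have h2 : ∀ᶠ x : ℝ in atTop, 7000 ≤ x ^ (e / 2) :=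
    (tendsto_rpow_atTop (show 0 < e / 2 by linarith)).eventually_ge_atTop 7000
  have h3 : ∀ᶠ x : ℝ in atTop, 6 ≤ Real.log x := Real.tendsto_log_atTop.eventually_ge_atTop 6
  filter_upwards [tendsto_natCast_atTop_atTop.eventually h1,
    tendsto_natCast_atTop_atTop.eventually h2, tendsto_natCast_atTop_atTop.eventually h3,
    eventually_ge_atTop 6] with n hn1 hn2 hn3 hn6
  refine ⟨hn6, fun q hq => ?_⟩
  have hnr : (6 : ℝ) ≤ n := by exact_mod_cast hn6
  have hn0 : (0 : ℝ) < n := by linarith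
  set L : ℝ := Real.log n with hL
  have hL0 : 0 < L := by linarith
  have hx0 : 0 ≤ (n : ℝ) ^ (α - e) := Real.rpow_nonneg hn0.le _
  have hx1 : 1 ≤ (n : ℝ) ^ (α - e) := Real.one_le_rpow (by linarith) (by linarith)
  -- L ^ 2 * 7000 ≤ n ^ e
  have hL2 : 7000 * L ^ 2 ≤ (n : ℝ) ^ e := by
    have h5 : L ^ 2 ≤ (n : ℝ) ^ (e / 2) := by
      have h6 : L ^ 2 ≤ ((n : ℝ) ^ (e / 4)) ^ 2 := pow_le_pow_left₀ hL0.le hn1 2
      refine h6.trans (le_of_eq ?_)
      rw [← Real.rpow_natCast, ← Real.rpow_mul hn0.le]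
      congr 1
      push_cast
      ring
    have h7 : (n : ℝ) ^ e = (n : ℝ) ^ (e / 2) * (n : ℝ) ^ (e / 2) := by
      rw [← Real.rpow_add hn0]; congr 1; ring
    rw [h7]
    exact mul_le_mul hn2 h5 (sq_nonneg _) (Real.rpow_nonneg hn0.le _)
  have hαe : (n : ℝ) ^ α = (n : ℝ) ^ (α - e) * (n : ℝ) ^ e := by
    rw [← Real.rpow_add hn0]; congr 1; ring
  have hlog200 : Real.log 200 ≤ 6 := by
    rw [Real.log_le_iff_le_exp (by norm_num)]
    have := Real.sum_le_exp_of_nonneg (show (0 : ℝ) ≤ 6 by norm_num) 8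
    refine le_trans ?_ this
    norm_num [Finset.sum_range_succ, Nat.factorial]
  -- main inequality of exponents
  have hexp : Real.log 200 + (2 * q + 4) * L ≤ (n : ℝ) ^ α / (1000 * L) := by
    rw [le_div_iff₀ (by positivity)]
    have h8 : Real.log 200 + (2 * q + 4) * L ≤ 7 * (n : ℝ) ^ (α - e) * L := by
      have h9 : (2 * (q : ℝ) + 4) * L ≤ (6 * (n : ℝ) ^ (α - e)) * L := by
        apply mul_le_mul_of_nonneg_right _ hL0.le
        linarith
      have h10 : 6 ≤ (n : ℝ) ^ (α - e) * L := by nlinarith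
      linarith
    calc (Real.log 200 + (2 * q + 4) * L) * (1000 * L)
        ≤ (7 * (n : ℝ) ^ (α - e) * L) * (1000 * L) :=
          mul_le_mul_of_nonneg_right h8 (by positivity)
      _ = (n : ℝ) ^ (α - e) * (7000 * L ^ 2) := by ring
      _ ≤ (n : ℝ) ^ (α - e) * (n : ℝ) ^ e := mul_le_mul_of_nonneg_left hL2 hx0
      _ = (n : ℝ) ^ α := hαe.symm
  have h11 : 200 * (n : ℝ) * (n : ℝ) ^ (2 * q + 3) = Real.exp (Real.log 200 + (2 * q + 4) * L) := by
    rw [Real.exp_add, Real.exp_log (by norm_num)]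
    have h12 : Real.exp ((2 * (q : ℝ) + 4) * L) = (n : ℝ) ^ (2 * q + 4) := by
      rw [mul_comm, ← Real.rpow_def_of_pos hn0]
      have : (2 * (q : ℝ) + 4) = ((2 * q + 4 : ℕ) : ℝ) := by push_cast; ring
      rw [this, Real.rpow_natCast]
    rw [h12]
    ring
  rw [h11, ← Real.exp_add, Real.exp_le_one_iff]
  linarith

theorem thm (hntr : Pool.Agent.Helper6.GP.S_NTR) (hhitr : Pool.Agent.Helper6.GP.S_HITR)
    (hcls : Pool.Agent.Helper6.GP.S_CLS) (hpar : Pool.Agent.Helper6.GP.S_PAR) :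
    Pool.Agent.Helper6.GP.S_HITN := by
  intro k α ε e hk hα hα1 hε hε1 he heα he2
  filter_upwards [hntr k α ε hk hα hα1 hε hε1, hpar (α - e) e (by linarith) (by linarith) he he2,
    numEst α e hα he heα] with n hn1 hn2 hn3
  obtain ⟨M, q, s, hM, hM3, hs, hs2, hq1, hle, hge, hMle, hqle, hsl, hsu⟩ := hn2
  obtain ⟨hn6, hnum⟩ := hn3
  obtain ⟨hc1, hc2, hc3⟩ := hcls n M q s hM hM3 hs hs2 hq1 hn6 hle hge
  refine ⟨M, 2 * s, ?_, by push_cast; exact hsl, by push_cast; exact hsu, ?_⟩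
  · have : 1 - α + e = 1 - (α - e) := by ring
    rw [this]; exact hMle
  intro z hgap t ht
  obtain ⟨F⟩ := exists_pw (Perm (Fin n))
  have h1 := hn1 z hgap t ht F
  have h2 := hhitr n k t z F (Real.exp (-((n : ℝ) ^ α / (1000 * Real.log n)))) hk (by omega)
    (Real.exp_pos _).le h1 (Cls n M q s) hc1
  set τ : ℝ := Real.exp (-((n : ℝ) ^ α / (1000 * Real.log n))) with hτ
  set A : ℝ := (Fintype.card (Alt n) : ℝ) with hA
  have hA0 : 0 < A := by
    rw [hA]; exact_mod_cast Fintype.card_pos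
  set E : ℝ := ((Cls n M q s).card : ℝ) with hE
  have hn0 : (0 : ℝ) < n := by
    have : (6 : ℝ) ≤ n := by exact_mod_cast hn6
    linarith
  set N₁ : ℕ := Nat.card {y : Alt n // ¬ Hits z t (fun u => u ∈ Cls n M q s) y} with hN1
  have hle2 : Nat.card {y : Alt n // ¬ Hits z t
      (fun u => ((u : Perm (Fin n)) ^ M).support.card = 2 * s) y} ≤ N₁ := by
    rw [hN1]
    refine Nat.card_le_card_of_injective
      (fun y => (⟨y.1, fun h => y.2 ?_⟩ :
        {y : Alt n // ¬ Hits z t (fun u => u ∈ Cls n M q s) y})) ?_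
    · intro B hB
      obtain ⟨g₁, g₂, h3, h4, h5⟩ := h B hB
      exact ⟨g₁, g₂, h3, h4, hc2 _ h5⟩
    · intro a b hab
      have := congrArg Subtype.val hab
      exact Subtype.ext this
  have hle3 : (Nat.card {y : Alt n // ¬ Hits z t
      (fun u => ((u : Perm (Fin n)) ^ M).support.card = 2 * s) y} : ℝ) ≤ N₁ := by
    exact_mod_cast hle2
  -- N₁ * A ≤ N₁ * n^(2q+3) * E ≤ 200 τ n^(2q+3) A²
  have h3 : (N₁ : ℝ) * A ≤ (200 * τ * (n : ℝ) ^ (2 * q + 3) * A) * A := by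
    calc (N₁ : ℝ) * A ≤ N₁ * ((n : ℝ) ^ (2 * q + 3) * E) :=
          mul_le_mul_of_nonneg_left hc3 (Nat.cast_nonneg _)
      _ = (n : ℝ) ^ (2 * q + 3) * (N₁ * E) := by ring
      _ ≤ (n : ℝ) ^ (2 * q + 3) * (200 * τ * A ^ 2) :=
          mul_le_mul_of_nonneg_left h2 (by positivity)
      _ = _ := by ring
  have h4 : (N₁ : ℝ) ≤ 200 * τ * (n : ℝ) ^ (2 * q + 3) * A := le_of_mul_le_mul_right h3 hA0
  have h5 := hnum q hqle
  calc (Nat.card {y : Alt n // ¬ Hits z t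
      (fun u => ((u : Perm (Fin n)) ^ M).support.card = 2 * s) y} : ℝ) * n ≤ N₁ * n :=
        mul_le_mul_of_nonneg_right hle3 hn0.le
    _ ≤ (200 * τ * (n : ℝ) ^ (2 * q + 3) * A) * n := mul_le_mul_of_nonneg_right h4 hn0.le
    _ = (200 * (n : ℝ) * (n : ℝ) ^ (2 * q + 3) * τ) * A := by ring
    _ ≤ 1 * A := mul_le_mul_of_nonneg_right h5 hA0.le
    _ = A := one_mul _

end Pool.Agent.Helper61.GPH
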