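import Pool.Agent.Helper89.GP.GoalsC

namespace Pool.Agent.Helper61.GP

open Finset Pool.Agent.Helper89.GP

theorem mnb (hpar : ParStmt) (hksn : KsnStmt) : MnbStmt := by
  intro n R x y z hxy hyz hxz ha hb hm
  have h1 := hksn _ _ _ _ (hpar n R x y hxy) ha
  have h2 := hksn _ _ _ _ (hpar n R y z hyz) hb
  have h3 : Pr R (fun σ => po σ y < po σ x ∨ po σ z < po σ y) = An R x y + An R y z := by
    apply Pr_add
    · intro σ _
      exact Iff.rfl
    · intro σ hσ h4 h5
      have := hxz σ hσ
      omega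
  have h4 : Pr R (fun σ => (po σ y < po σ x ∨ po σ z < po σ y) ∨
      (po σ x < po σ y ∧ po σ y < po σ z)) =
      Pr R (fun σ => po σ y < po σ x ∨ po σ z < po σ y) + Ms R x y z := by
    apply Pr_add
    · intro σ _
      exact Iff.rfl
    · intro σ _ h4 h5
      omega
  have h5 := Pr_le_one (R := R) (fun σ => (po σ y < po σ x ∨ po σ z < po σ y) ∨
      (po σ x < po σ y ∧ po σ y < po σ z))
  linarith

end Pool.Agent.Helper61.GP
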