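import Pool.Agent.Helper89.GP.GoalsC

namespace Pool.Agent.Helper61.GP

open Finset Pool.Agent.Helper89.GP

theorem mnc (hpar : ParStmt) (hnum : NumStmt) (hadj : AdjStmt) (hdcb : DcbStmt) : MncStmt := by
  classical
  intro n R y z hyz ha
  have h1 := hnum _ _ _ _ (hpar n R y z hyz) ha
  have h2 := hadj n R y z hyz
  have hne := hyz.nonempty
  refine ⟨?_, ?_⟩
  · intro x hx
    have hxz : x ≠ z := by
      rintro rfl
      obtain ⟨σ, h3, h4⟩ := hyz.1
      have := hx σ h3
      omega
    have h3 : 1 + bq R z y 0 ≤ gp R x y := by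
      have h4 : 1 + bq R z y 0 = Ex R (fun σ => 1 + if po σ y = po σ z + (0 + 1) then 1 else 0) := by
        rw [Ex_add, Ex_const hne, ← Pr_eq_Ex]
        rfl
      rw [h4]
      unfold gp
      apply Ex_mono
      intro σ hσ
      have h5 := hx σ hσ
      have h6 : po σ x ≠ po σ z := fun e => hxz (po_inj.1 e)
      unfold df
      split_ifs with h7
      · have h8 : po σ x + 2 ≤ po σ y := by omega
        have h9 : ((po σ x : ℕ) : ℝ) + 2 ≤ po σ y := by exact_mod_cast h8
        linarith
      · have h8 : po σ x + 1 ≤ po σ y := by omega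
        have h9 : ((po σ x : ℕ) : ℝ) + 1 ≤ po σ y := by exact_mod_cast h8
        linarith
    linarith
  · have h3 : bq R z y 0 ≤ hh R y := by
      have h4 : bq R z y 0 = Ex R (fun σ => if po σ y = po σ z + (0 + 1) then 1 else 0) := by
        rw [← Pr_eq_Ex]
        rfl
      rw [h4]
      unfold hh
      apply Ex_mono
      intro σ hσ
      split_ifs with h7
      · have h8 : 1 ≤ po σ y := by omega
        exact_mod_cast h8
      · positivity
    have h4 := (hdcb n R y z hne hyz.ne).2.2.2.1
    linarith

end Pool.Agent.Helper61.GP
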